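import Mathlib

/-!
The interleaved pair of sequences `A`, `B` behind the perturbed Hofstadter sequence.
-/

namespace Pool.Agent.V11199.HF

/-- interleaved sequence (computable version) -/
def f0 (n : ℕ) : ℕ :=
  if n < 4 then 1 else
  if n % 2 = 0 then
    f0 (2 * (n/2 - max 1 (f0 (n-1))) + 1) + f0 (2 * (n/2 - max 1 (f0 (n-2))) + 1) - 1
  else
    f0 (2 * (n/2 + 1 - max 1 (f0 (n-1)))) + f0 (2 * (n/2 + 1 - max 1 (f0 (n-2))))
termination_by n
decreasing_by all_goals omega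

lemma f_exists : ∃ f : ℕ → ℕ, (∀ n, n < 4 → f n = 1) ∧
    (∀ n, 4 ≤ n → n % 2 = 0 → f n = f (2 * (n/2 - max 1 (f (n-1))) + 1) +
      f (2 * (n/2 - max 1 (f (n-2))) + 1) - 1) ∧
    (∀ n, 4 ≤ n → n % 2 = 1 → f n = f (2 * (n/2 + 1 - max 1 (f (n-1)))) +
      f (2 * (n/2 + 1 - max 1 (f (n-2))))) := by
  refine ⟨f0, ?_, ?_, ?_⟩
  · intro n h
    rw [f0]; simp [h]
  · intro n h h2
    rw [f0]; simp [show ¬ n < 4 by omega, h2]
  · intro n h h2
    rw [f0]; simp [show ¬ n < 4 by omega, h2]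

/-- interleaved sequence: `f (2m) = A m`, `f (2m+1) = B m` (made opaque on purpose). -/
noncomputable def f : ℕ → ℕ := f_exists.choose

noncomputable def A (m : ℕ) : ℕ := f (2*m)
noncomputable def B (m : ℕ) : ℕ := f (2*m+1)

lemma f_small {n : ℕ} (h : n < 4) : f n = 1 := f_exists.choose_spec.1 n h

lemma f_even {n : ℕ} (h : 4 ≤ n) (h2 : n % 2 = 0) :
    f n = f (2 * (n/2 - max 1 (f (n-1))) + 1) + f (2 * (n/2 - max 1 (f (n-2))) + 1) - 1 :=
  f_exists.choose_spec.2.1 n h h2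

lemma f_odd {n : ℕ} (h : 4 ≤ n) (h2 : n % 2 = 1) :
    f n = f (2 * (n/2 + 1 - max 1 (f (n-1)))) + f (2 * (n/2 + 1 - max 1 (f (n-2)))) :=
  f_exists.choose_spec.2.2 n h h2

lemma f_pos (n : ℕ) : 1 ≤ f n := by
  induction n using Nat.strong_induction_on with
  | _ n ih =>
    rcases Nat.lt_or_ge n 4 with h | h
    · rw [f_small h]
    · rcases Nat.mod_two_eq_zero_or_one n with h2 | h2
      · rw [f_even h h2]
        have h3 := ih (2 * (n/2 - max 1 (f (n-1))) + 1) (by omega)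
        have h4 := ih (2 * (n/2 - max 1 (f (n-2))) + 1) (by omega)
        omega
      · rw [f_odd h h2]
        have h3 := ih (2 * (n/2 + 1 - max 1 (f (n-1)))) (by omega)
        omega

lemma A_pos (m : ℕ) : 1 ≤ A m := f_pos _
lemma B_pos (m : ℕ) : 1 ≤ B m := f_pos _

lemma A_one : A 1 = 1 := f_small (by omega)
lemma B_one : B 1 = 1 := f_small (by omega)

lemma RA {m X Y : ℕ} (hm : 1 ≤ m) (hX : X + A m = m + 1) (hY : Y + B m = m + 1) :
    A (m+1) + 1 = B X + B Y := by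
  have h1 : A (m+1) = f (2 * ((2*(m+1))/2 - max 1 (f (2*(m+1)-1))) + 1) +
      f (2 * ((2*(m+1))/2 - max 1 (f (2*(m+1)-2))) + 1) - 1 :=
    f_even (by omega) (by omega)
  have e1 : 2*(m+1) - 1 = 2*m+1 := by omega
  have e2 : 2*(m+1) - 2 = 2*m := by omega
  have e3 : 2*(m+1)/2 = m+1 := by omega
  rw [e1, e2, e3] at h1
  have hA := A_pos m
  have hB := B_pos m
  have e4 : m + 1 - max 1 (f (2*m+1)) = Y := by
    show m + 1 - max 1 (B m) = Y
    omega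
  have e5 : m + 1 - max 1 (f (2*m)) = X := by
    show m + 1 - max 1 (A m) = X
    omega
  rw [e4, e5] at h1
  have h2 : A (m+1) = B Y + B X - 1 := h1
  have := B_pos X
  have := B_pos Y
  omega

lemma RB {m X Y : ℕ} (hm : 1 ≤ m) (hX : X + A (m+1) = m + 2) (hY : Y + B m = m + 1) :
    B (m+1) = A X + A (Y+1) := by
  have h1 : B (m+1) = f (2 * ((2*(m+1)+1)/2 + 1 - max 1 (f (2*(m+1)+1-1)))) +
      f (2 * ((2*(m+1)+1)/2 + 1 - max 1 (f (2*(m+1)+1-2)))) :=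
    f_odd (by omega) (by omega)
  have e1 : 2*(m+1)+1 - 1 = 2*(m+1) := by omega
  have e2 : 2*(m+1)+1 - 2 = 2*m+1 := by omega
  have e3 : (2*(m+1)+1)/2 = m+1 := by omega
  rw [e1, e2, e3] at h1
  have hA := A_pos (m+1)
  have hB := B_pos m
  have e4 : m + 1 + 1 - max 1 (f (2*(m+1))) = X := by
    show m + 1 + 1 - max 1 (A (m+1)) = X
    omega
  have e5 : m + 1 + 1 - max 1 (f (2*m+1)) = Y + 1 := by
    show m + 1 + 1 - max 1 (B m) = Y + 1
    omega
  rw [e4, e5] at h1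
  exact h1

/-- Complementary step. -/
def cP (t : ℕ) : Prop :=
  (A (t+1) = A t ∧ B (t+1) = B t + 1) ∨ (A (t+1) = A t + 1 ∧ B (t+1) = B t)

/-- Shifted complementary step. -/
def cN (t : ℕ) : Prop :=
  (A (t+2) = A (t+1) ∧ B (t+1) = B t + 1) ∨ (A (t+2) = A (t+1) + 1 ∧ B (t+1) = B t)

/-- The positive phase. -/
structure PP (r a U V : ℕ) : Prop where
  hU : U + r + 2 = 2*a
  hV : V + r + 2 = 4*a
  ha : r + 3 ≤ a
  uA : ∀ j ≤ r+2, A (U + j) = a
  uB : ∀ j ≤ r+2, B (U + j) = a + j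
  comp : ∀ t, U ≤ t → t < V + r + 1 → cP t
  vA : ∀ j ≤ 2*r+4, A (2*U + j) = U + j
  vB : ∀ j ≤ 2*r+3, B (2*U + j) = 2*a
  preA : A (2*U-1) = U
  preB : B (2*U-1) + 1 = 2*a
  pos : ∀ t, U < t → t < V → A t < B t

/-- The negative phase; here `b` is the next `a`, `W` the next `U`. -/
structure NN (r b V W : ℕ) : Prop where
  hb : V + r + 1 = b
  hW : W = 2*V + r - 1
  hr : r + 10 ≤ V
  comp : ∀ t, V - 1 ≤ t → t < W + r + 2 → cN t
  uA : ∀ j ≤ 2*r+4, A (2*V-2 + j) = b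
  uB : ∀ j ≤ 2*r+5, B (2*V-3 + j) = V - 1 + j
  preA : A (2*V-3) + 1 = b
  preB : B (2*V-4) = V - 1
  vA : A V + A V = V + r + 2
  vB : B (V-1) = A V
  vB' : B V = A V
  vB2 : B (V+r+1) = A V
  vA2 : A (V+r+2) = A V + r + 2
  neg : ∀ t, V < t → t < W → B t < A t

end Pool.Agent.V11199.HF
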