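import Pool.Agent.V11199.HF.Pos

/-!
Base case and the global structure.
-/

namespace Pool.Agent.V11199.HF

lemma vals : (A 1 = 1 ∧ B 1 = 1) ∧ (A 2 = 1 ∧ B 2 = 2) ∧ (A 3 = 2 ∧ B 3 = 2) ∧ (A 4 = 3 ∧ B 4 = 3) ∧ (A 5 = 3 ∧ B 5 = 4) ∧ (A 6 = 3 ∧ B 6 = 5) ∧ (A 7 = 4 ∧ B 7 = 5) ∧ (A 8 = 4 ∧ B 8 = 6) ∧ (A 9 = 5 ∧ B 9 = 6) ∧ (A 10 = 6 ∧ B 10 = 6) ∧ (A 11 = 7 ∧ B 11 = 6) ∧ (A 12 = 8 ∧ B 12 = 7) := by
  have a1 : A 1 = 1 := A_one
  have b1 : B 1 = 1 := B_one
  have a2 : A 2 = 1 := by
    have h : A (1+1) + 1 = B 1 + B 1 := RA (by omega) (by omega) (by omega)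
    simp only [Nat.reduceAdd] at h
    omega
  have b2 : B 2 = 2 := by
    have h : B (1+1) = A 2 + A (1+1) := RB (by omega) (by simp only [Nat.reduceAdd]; omega) (by omega)
    simp only [Nat.reduceAdd] at h
    omega
  have a3 : A 3 = 2 := by
    have h : A (2+1) + 1 = B 2 + B 1 := RA (by omega) (by omega) (by omega)
    simp only [Nat.reduceAdd] at h
    omega
  have b3 : B 3 = 2 := by
    have h : B (2+1) = A 2 + A (1+1) := RB (by omega) (by simp only [Nat.reduceAdd]; omega) (by omega)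
    simp only [Nat.reduceAdd] at h
    omega
  have a4 : A 4 = 3 := by
    have h : A (3+1) + 1 = B 2 + B 2 := RA (by omega) (by omega) (by omega)
    simp only [Nat.reduceAdd] at h
    omega
  have b4 : B 4 = 3 := by
    have h : B (3+1) = A 2 + A (2+1) := RB (by omega) (by simp only [Nat.reduceAdd]; omega) (by omega)
    simp only [Nat.reduceAdd] at h
    omega
  have a5 : A 5 = 3 := by
    have h : A (4+1) + 1 = B 2 + B 2 := RA (by omega) (by omega) (by omega)
    simp only [Nat.reduceAdd] at h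
    omega
  have b5 : B 5 = 4 := by
    have h : B (4+1) = A 3 + A (2+1) := RB (by omega) (by simp only [Nat.reduceAdd]; omega) (by omega)
    simp only [Nat.reduceAdd] at h
    omega
  have a6 : A 6 = 3 := by
    have h : A (5+1) + 1 = B 3 + B 2 := RA (by omega) (by omega) (by omega)
    simp only [Nat.reduceAdd] at h
    omega
  have b6 : B 6 = 5 := by
    have h : B (5+1) = A 4 + A (2+1) := RB (by omega) (by simp only [Nat.reduceAdd]; omega) (by omega)
    simp only [Nat.reduceAdd] at h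
    omega
  have a7 : A 7 = 4 := by
    have h : A (6+1) + 1 = B 4 + B 2 := RA (by omega) (by omega) (by omega)
    simp only [Nat.reduceAdd] at h
    omega
  have b7 : B 7 = 5 := by
    have h : B (6+1) = A 4 + A (2+1) := RB (by omega) (by simp only [Nat.reduceAdd]; omega) (by omega)
    simp only [Nat.reduceAdd] at h
    omega
  have a8 : A 8 = 4 := by
    have h : A (7+1) + 1 = B 4 + B 3 := RA (by omega) (by omega) (by omega)
    simp only [Nat.reduceAdd] at h
    omega
  have b8 : B 8 = 6 := by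
    have h : B (7+1) = A 5 + A (3+1) := RB (by omega) (by simp only [Nat.reduceAdd]; omega) (by omega)
    simp only [Nat.reduceAdd] at h
    omega
  have a9 : A 9 = 5 := by
    have h : A (8+1) + 1 = B 5 + B 3 := RA (by omega) (by omega) (by omega)
    simp only [Nat.reduceAdd] at h
    omega
  have b9 : B 9 = 6 := by
    have h : B (8+1) = A 5 + A (3+1) := RB (by omega) (by simp only [Nat.reduceAdd]; omega) (by omega)
    simp only [Nat.reduceAdd] at h
    omega
  have a10 : A 10 = 6 := by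
    have h : A (9+1) + 1 = B 5 + B 4 := RA (by omega) (by omega) (by omega)
    simp only [Nat.reduceAdd] at h
    omega
  have b10 : B 10 = 6 := by
    have h : B (9+1) = A 5 + A (4+1) := RB (by omega) (by simp only [Nat.reduceAdd]; omega) (by omega)
    simp only [Nat.reduceAdd] at h
    omega
  have a11 : A 11 = 7 := by
    have h : A (10+1) + 1 = B 5 + B 5 := RA (by omega) (by omega) (by omega)
    simp only [Nat.reduceAdd] at h
    omega
  have b11 : B 11 = 6 := by
    have h : B (10+1) = A 5 + A (5+1) := RB (by omega) (by simp only [Nat.reduceAdd]; omega) (by omega)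
    simp only [Nat.reduceAdd] at h
    omega
  have a12 : A 12 = 8 := by
    have h : A (11+1) + 1 = B 5 + B 6 := RA (by omega) (by omega) (by omega)
    simp only [Nat.reduceAdd] at h
    omega
  have b12 : B 12 = 7 := by
    have h : B (11+1) = A 5 + A (6+1) := RB (by omega) (by simp only [Nat.reduceAdd]; omega) (by omega)
    simp only [Nat.reduceAdd] at h
    omega
  exact ⟨⟨a1, b1⟩, ⟨a2, b2⟩, ⟨a3, b3⟩, ⟨a4, b4⟩, ⟨a5, b5⟩, ⟨a6, b6⟩, ⟨a7, b7⟩, ⟨a8, b8⟩, ⟨a9, b9⟩, ⟨a10, b10⟩, ⟨a11, b11⟩, ⟨a12, b12⟩⟩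

lemma base : PP 0 3 4 10 := by
  obtain ⟨⟨a1, b1⟩, ⟨a2, b2⟩, ⟨a3, b3⟩, ⟨a4, b4⟩, ⟨a5, b5⟩, ⟨a6, b6⟩, ⟨a7, b7⟩, ⟨a8, b8⟩, ⟨a9, b9⟩, ⟨a10, b10⟩, ⟨a11, b11⟩, ⟨a12, b12⟩⟩ := vals
  refine ⟨by omega, by omega, by omega, ?_, ?_, ?_, ?_, ?_, a7, (by show B 7 + 1 = 6; omega), ?_⟩
  · intro j hj; interval_cases j <;> simp [a4, a5, a6]
  · intro j hj; interval_cases j <;> simp [b4, b5, b6]
  · intro t h1 h2
    unfold cP
    interval_cases t <;> simp [a4, a5, a6, a7, a8, a9, a10, a11, b4, b5, b6, b7, b8, b9, b10, b11]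
  · intro j hj; interval_cases j <;> simp [a8, a9, a10, a11, a12]
  · intro j hj; interval_cases j <;> simp [b8, b9, b10, b11]
  · intro t h1 h2
    interval_cases t <;> simp [a5, a6, a7, a8, a9, b5, b6, b7, b8, b9]

/-- `a_r = (2·4^{r+1}+1)/3`. -/
def aa : ℕ → ℕ
  | 0 => 3
  | (r+1) => 4 * aa r - 1

lemma aa_eq (r : ℕ) : 3 * aa r = 2 * 4^(r+1) + 1 := by
  induction r with
  | zero => rfl
  | succ r ih =>
    have h1 : aa (r+1) = 4 * aa r - 1 := rfl
    have h2 : 4^(r+1+1) = 4 * 4^(r+1) := by ring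
    omega

lemma aa_ge (r : ℕ) : r + 3 ≤ aa r := by
  induction r with
  | zero => exact le_rfl
  | succ r ih =>
    have h1 : aa (r+1) = 4 * aa r - 1 := rfl
    omega

def UU (r : ℕ) : ℕ := 2 * aa r - r - 2
def VV (r : ℕ) : ℕ := 4 * aa r - r - 2

theorem structPP (r : ℕ) : PP r (aa r) (UU r) (VV r) := by
  induction r with
  | zero => exact base
  | succ r ih =>
    have h := toPP (toNN ih)
    have hg := aa_ge r
    have h1 : aa (r+1) = 4 * aa r - 1 := rfl
    have e1 : VV r + r + 1 = aa (r+1) := by unfold VV; omega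
    have e2 : 2 * VV r + r - 1 = UU (r+1) := by unfold VV UU; omega
    have e3 : 2 * (2 * VV r + r - 1) + r + 3 = VV (r+1) := by unfold VV; omega
    rw [e1, e3, e2] at h
    exact h

theorem structNN (r : ℕ) : NN r (aa (r+1)) (VV r) (UU (r+1)) := by
  have h := toNN (structPP r)
  have hg := aa_ge r
  have h1 : aa (r+1) = 4 * aa r - 1 := rfl
  have e1 : VV r + r + 1 = aa (r+1) := by unfold VV; omega
  have e2 : 2 * VV r + r - 1 = UU (r+1) := by unfold VV UU; omega
  rw [e1, e2] at h
  exact h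

/-- every `m ≥ 4` lies in a block -/
lemma block (m : ℕ) (hm : 4 ≤ m) : ∃ r, (UU r ≤ m ∧ m ≤ VV r) ∨ (VV r < m ∧ m < UU (r+1)) := by
  have h : ∃ r, m < UU (r+1) := by
    refine ⟨m, ?_⟩
    have h1 : ∀ r, r < UU (r+1) := by
      intro r
      have := aa_ge (r+1)
      unfold UU
      omega
    exact h1 m
  classical
  have h1 := Nat.find_spec h
  rcases Nat.eq_zero_or_pos (Nat.find h) with h0 | h0
  · rw [h0] at h1
    refine ⟨0, ?_⟩
    have e0 : UU 0 = 4 := rfl
    rcases Nat.lt_or_ge (VV 0) m with h2 | h2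
    · right; exact ⟨h2, h1⟩
    · left; exact ⟨by omega, h2⟩
  · have h2 := Nat.find_min h (m := Nat.find h - 1) (by omega)
    have e : Nat.find h - 1 + 1 = Nat.find h := by omega
    rw [e] at h2
    refine ⟨Nat.find h, ?_⟩
    rcases Nat.lt_or_ge (VV (Nat.find h)) m with h3 | h3
    · right; exact ⟨h3, h1⟩
    · left; exact ⟨by omega, h3⟩

lemma le_self_aux (m : ℕ) (hm : 1 ≤ m) : A m ≤ m ∧ B m ≤ m := by
  rcases Nat.lt_or_ge m 4 with h | h
  · obtain ⟨⟨a1, b1⟩, ⟨a2, b2⟩, ⟨a3, b3⟩, _⟩ := vals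
    interval_cases m <;> omega
  · obtain ⟨r, hr⟩ := block m h
    have hg := aa_ge r
    have hP := structPP r
    have hN := structNN r
    rcases hr with ⟨h1, h2⟩ | ⟨h1, h2⟩
    · have hs := hP.sum' h1 (by omega)
      obtain ⟨k, rfl⟩ := Nat.exists_eq_add_of_le h1
      have m1 := hP.monoA (s := UU r) le_rfl k (by omega)
      have m2 := hP.monoB (s := UU r) le_rfl k (by omega)
      have u1 := hP.uA 0 (by omega)
      have u2 := hP.uB 0 (by omega)
      rw [Nat.add_zero] at u1 u2
      omega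
    · have hA : A m ≤ m := by
        have key : ∀ k, VV r - 1 + k < UU (r+1) + r + 2 →
            A (VV r - 1 + k + 1) + B (VV r - 1 + k) = VV r - 1 + k + r + 3 := by
          intro k
          induction k with
          | zero =>
            intro _
            have e : VV r - 1 + 0 + 1 = VV r := by have := hN.hr; omega
            rw [e, Nat.add_zero, hN.vB, hN.vA]
            have := hN.hr
            omega
          | succ k ih =>
            intro hk
            have i1 := ih (by omega)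
            have c := hN.comp (VV r - 1 + k) (by omega) (by omega)
            unfold cN at c
            have e1 : VV r - 1 + (k+1) = VV r - 1 + k + 1 := by omega
            rw [e1]
            have e2 : VV r - 1 + k + 1 + 1 = VV r - 1 + k + 2 := by omega
            rw [e2]
            rcases c with ⟨c1, c2⟩ | ⟨c1, c2⟩ <;> omega
        have hr' := hN.hr
        obtain ⟨k, hk⟩ := Nat.exists_eq_add_of_le (show VV r ≤ m by omega)
        have k1 := key k (by omega)
        have e3 : VV r - 1 + k + 1 = m := by omega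
        rw [e3] at k1
        have k2 := (hN.lipB (s := VV r - 1) le_rfl k (by omega)).1
        have k3 := hN.vB
        have k4 := hN.vA
        have k5 := hP.hV
        omega
      have hB := hN.neg m h1 h2
      omega

end Pool.Agent.V11199.HF
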