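import Pool.Agent.V11199.HF.Basic

/-!
The negative phase.
-/

namespace Pool.Agent.V11199.HF

variable {r a U V : ℕ}

lemma PP.sum (h : PP r a U V) : ∀ k, U + k ≤ V + r + 1 → A (U+k) + B (U+k) = U + k + r + 2 := by
  intro k
  induction k with
  | zero =>
    intro _
    have h1 := h.uA 0 (by omega)
    have h2 := h.uB 0 (by omega)
    have h3 := h.hU
    omega
  | succ k ih =>
    intro hk
    have h1 := ih (by omega)
    have h2 := h.comp (U+k) (by omega) (by omega)
    have e : U + (k+1) = U + k + 1 := by omega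
    rw [e]
    rcases h2 with ⟨h3, h4⟩ | ⟨h3, h4⟩ <;> omega

lemma PP.sum' (h : PP r a U V) {t : ℕ} (h1 : U ≤ t) (h2 : t ≤ V + r + 1) :
    A t + B t = t + r + 2 := by
  obtain ⟨k, rfl⟩ := Nat.exists_eq_add_of_le h1
  exact h.sum k h2

lemma PP.monoB (h : PP r a U V) {s : ℕ} (hs : U ≤ s) : ∀ k, s + k ≤ V + r + 1 → B s ≤ B (s+k) := by
  intro k
  induction k with
  | zero => intro _; exact le_rfl
  | succ k ih =>
    intro hk
    have h1 := ih (by omega)
    have h2 := h.comp (s+k) (by omega) (by omega)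
    have e : s + (k+1) = s + k + 1 := by omega
    rw [e]
    rcases h2 with ⟨h3, h4⟩ | ⟨h3, h4⟩ <;> omega

lemma PP.monoA (h : PP r a U V) {s : ℕ} (hs : U ≤ s) : ∀ k, s + k ≤ V + r + 1 → A s ≤ A (s+k) := by
  intro k
  induction k with
  | zero => intro _; exact le_rfl
  | succ k ih =>
    intro hk
    have h1 := ih (by omega)
    have h2 := h.comp (s+k) (by omega) (by omega)
    have e : s + (k+1) = s + k + 1 := by omega
    rw [e]
    rcases h2 with ⟨h3, h4⟩ | ⟨h3, h4⟩ <;> omega

/-- pointer state in the negative phase -/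
structure NS (r U n X Y : ℕ) : Prop where
  hX : X + A (n+1) = n + 2
  hY : Y + B n = n + 1
  hs : X + Y + r = n
  hU : U + 1 ≤ X
  mode : (B n = A X + A Y ∧ A (n+1) + 1 = B X + B Y) ∨
    (∃ X0, X = X0 + 1 ∧ U + 1 ≤ X0 ∧ B n = A X0 + A (Y+1) ∧ A (n+1) + 1 = B X0 + B Y ∧
      A (Y+1) = A Y + 1)

lemma NS.step (hP : PP r a U V) {n X Y : ℕ} (S : NS r U n X Y) (hXY : X ≤ Y) (hYV : Y + 2 ≤ V) :
    (NS r U (n+1) (X+1) Y ∧ X + 1 ≤ Y ∧ A (n+2) = A (n+1) ∧ B (n+1) = B n + 1 ∧
      B (n+1) < A (n+1)) ∨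
    (NS r U (n+1) X (Y+1) ∧ A (n+2) = A (n+1) + 1 ∧ B (n+1) = B n ∧ B (n+1) < A (n+1) ∧
      (∃ X0, X = X0 + 1 ∧ U + 1 ≤ X0 ∧ A X = A X0 ∧ B X = B X0 + 1 ∧ A (Y+1) = A Y + 1) ∨
     NS r U (n+1) X (Y+1) ∧ A (n+2) = A (n+1) + 1 ∧ B (n+1) = B n ∧ B (n+1) < A (n+1) ∧
      A (Y+1) = A Y) := by
  have hX := S.hX
  have hY := S.hY
  have hs := S.hs
  have hU := S.hU
  have cY := hP.comp Y (by omega) (by omega)
  have pX := hP.pos X (by omega) (by omega)
  have pY := hP.pos Y (by omega) (by omega)
  have pY1 := hP.pos (Y+1) (by omega) (by omega)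
  have hRB : B (n+1) = A X + A (Y+1) := RB (by omega) hX hY
  rcases S.mode with ⟨m1, m2⟩ | ⟨X0, rfl, hX0, m1, m2, m3⟩
  · rcases cY with ⟨c1, c2⟩ | ⟨c1, c2⟩
    · -- Y advances
      right; right
      have hB : B (n+1) = B n := by omega
      have hRA : A (n+1+1) + 1 = B X + B (Y+1) := RA (m := n+1) (by omega) (by omega) (by omega)
      have hA : A (n+2) = A (n+1) + 1 := by
        show A (n+1+1) = _
        omega
      refine ⟨⟨?_, ?_, ?_, hU, Or.inl ⟨?_, ?_⟩⟩, hA, hB, by omega, c1⟩
      · show X + A (n+2) = _; omega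
      · omega
      · omega
      · omega
      · exact hRA
    · -- X advances
      left
      have hB : B (n+1) = B n + 1 := by omega
      have hRA : A (n+1+1) + 1 = B X + B Y := RA (m := n+1) (by omega) (by omega) (by omega)
      have hA : A (n+2) = A (n+1) := by
        show A (n+1+1) = _
        omega
      refine ⟨⟨?_, ?_, ?_, by omega, Or.inr ⟨X, rfl, hU, hRB, hRA, c1⟩⟩, by omega, hA, hB, by omega⟩
      · show X + 1 + A (n+2) = _; omega
      · omega
      · omega
  · have cX := hP.comp X0 (by omega) (by omega)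
    have cY' : B (Y+1) = B Y := by
      rcases cY with ⟨c1, c2⟩ | ⟨c1, c2⟩ <;> omega
    have pX0 := hP.pos X0 (by omega) (by omega)
    rcases cX with ⟨c1, c2⟩ | ⟨c1, c2⟩
    · right; left
      have hB : B (n+1) = B n := by omega
      have hRA : A (n+1+1) + 1 = B (X0+1) + B (Y+1) :=
        RA (m := n+1) (by omega) (by omega) (by omega)
      have hA : A (n+2) = A (n+1) + 1 := by
        show A (n+1+1) = _
        omega
      refine ⟨⟨?_, ?_, ?_, hU, Or.inl ⟨?_, ?_⟩⟩, hA, hB, by omega, X0, rfl, hX0, c1, c2, m3⟩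
      · show X0 + 1 + A (n+2) = _; omega
      · omega
      · omega
      · omega
      · exact hRA
    · left
      have hB : B (n+1) = B n + 1 := by omega
      have hRA : A (n+1+1) + 1 = B (X0+1) + B Y := RA (m := n+1) (by omega) (by omega) (by omega)
      have hA : A (n+2) = A (n+1) := by
        show A (n+1+1) = _
        omega
      refine ⟨⟨?_, ?_, ?_, by omega, Or.inr ⟨X0+1, rfl, by omega, hRB, hRA, m3⟩⟩,
        by omega, hA, hB, by omega⟩
      · show X0 + 1 + 1 + A (n+2) = _; omega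
      · omega
      · omega

/-- the invariant along the negative phase -/
def NInv (r U V n : ℕ) : Prop :=
  ∃ X Y, NS r U n X Y ∧ X ≤ Y ∧ (Y + 2 ≤ V ∨ (Y + 1 = V ∧ X = 2 * U))

lemma NInv.step (hP : PP r a U V) {n : ℕ} (hn : n + 4 ≤ 2 * V) (h : NInv r U V n) :
    NInv r U V (n+1) ∧ cN n ∧ B (n+1) < A (n+1) := by
  obtain ⟨X, Y, S, hXY, hY⟩ := h
  have hUU := hP.hU
  have hVV := hP.hV
  have haa := hP.ha
  have hY2 : Y + 2 ≤ V := by
    rcases hY with h1 | ⟨h1, h2⟩
    · exact h1
    · have := S.hs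
      omega
  rcases S.step hP hXY hY2 with ⟨S', h1, h2, h3, h4⟩ | ⟨S', h2, h3, h4, X0, hX0, hX0', c1, c2, c3⟩ |
    ⟨S', h2, h3, h4, c3⟩
  · exact ⟨⟨X+1, Y, S', h1, Or.inl hY2⟩, Or.inl ⟨h2, h3⟩, h4⟩
  · refine ⟨⟨X, Y+1, S', by omega, ?_⟩, Or.inr ⟨h2, h3⟩, h4⟩
    rcases Nat.lt_or_ge (Y+2) V with h5 | h5
    · left; omega
    · right
      refine ⟨by omega, ?_⟩
      -- identify `X`
      have e1 : Y + 1 = 2*U + (r+1) := by omega
      have hA1 : A (Y+1) = U + (r+1) := by rw [e1]; exact hP.vA (r+1) (by omega)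
      have hX' := S'.hX
      have hY' := S'.hY
      have hs' := S'.hs
      have hB : B (n+1) = A X + A (Y+1) := RB (by have := S.hs; have := S.hU; omega) S.hX S.hY
      have hsum := hP.sum' (t := X) (by have := S.hU; omega) (by omega)
      have hBX : B X = 2 * a := by omega
      rcases Nat.lt_trichotomy X (2*U) with h6 | h6 | h6
      · exfalso
        obtain ⟨k, hk⟩ := Nat.exists_eq_add_of_le (show X ≤ 2*U-1 by omega)
        have := hP.monoB (s := X) (by omega) k (by omega)
        rw [← hk] at this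
        have := hP.preB
        omega
      · exact h6
      · exfalso
        obtain ⟨k, hk⟩ := Nat.exists_eq_add_of_le (show 2*U ≤ X0 by omega)
        have := hP.vB k (by omega)
        rw [← hk] at this
        omega
  · refine ⟨⟨X, Y+1, S', by omega, ?_⟩, Or.inr ⟨h2, h3⟩, h4⟩
    rcases Nat.lt_or_ge (Y+2) V with h5 | h5
    · left; omega
    · exfalso
      have e1 : Y + 1 = 2*U + (r+1) := by omega
      have e2 : Y = 2*U + r := by omega
      have hA1 : A (Y+1) = U + (r+1) := by rw [e1]; exact hP.vA (r+1) (by omega)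
      have hA2 : A Y = U + r := by rw [e2]; exact hP.vA r (by omega)
      omega

lemma NInv.start (hP : PP r a U V) : NInv r U V (V + r + 1) := by
  have hUU := hP.hU
  have hVV := hP.hV
  have haa := hP.ha
  have a1 := hP.uA 1 (by omega)
  have a2 := hP.uA (r+2) (by omega)
  have b1 := hP.uB 1 (by omega)
  have b2 := hP.uB (r+2) (by omega)
  have a3 := hP.vA (2*r+4) (by omega)
  have b3 := hP.vB (2*r+3) (by omega)
  have e1 : 2*U + (2*r+4) = V + r + 1 + 1 := by omega
  have e2 : 2*U + (2*r+3) = V + r + 1 := by omega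
  rw [e1] at a3
  rw [e2] at b3
  refine ⟨U+1, U+(r+2), ⟨?_, ?_, ?_, le_rfl, Or.inl ⟨?_, ?_⟩⟩, by omega, Or.inl (by omega)⟩
  all_goals omega

lemma NInv.all (hP : PP r a U V) : ∀ k, V + r + 1 + k + 3 ≤ 2 * V → NInv r U V (V + r + 1 + k) := by
  intro k
  induction k with
  | zero => intro _; exact NInv.start hP
  | succ k ih =>
    intro hk
    exact (NInv.step hP (by omega) (ih (by omega))).1

lemma NInv.all' (hP : PP r a U V) {n : ℕ} (h1 : V + r + 1 ≤ n) (h2 : n + 3 ≤ 2*V) :
    NInv r U V n := by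
  obtain ⟨k, rfl⟩ := Nat.exists_eq_add_of_le h1
  exact NInv.all hP k h2

/-- the end state of the negative phase -/
lemma NInv.last (hP : PP r a U V) : NS r U (2*V-3) (2*U) (V-1) := by
  have hUU := hP.hU
  have hVV := hP.hV
  have haa := hP.ha
  obtain ⟨X, Y, S, hXY, hY⟩ := NInv.all' hP (n := 2*V-3) (by omega) (by omega)
  rcases hY with h1 | ⟨h1, h2⟩
  · exfalso
    have hs := S.hs
    have hYY := S.hY
    obtain ⟨x, hx⟩ := Nat.exists_eq_add_of_le (show 2*U+1 ≤ X by omega)
    obtain ⟨y, hy⟩ := Nat.exists_eq_add_of_le (show 2*U+1 ≤ Y by omega)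
    have hAX := hP.vA (x+1) (by omega)
    have e1 : 2*U + (x+1) = X := by omega
    rw [e1] at hAX
    have hAY := hP.vA (y+1) (by omega)
    have e2 : 2*U + (y+1) = Y := by omega
    rw [e2] at hAY
    rcases S.mode with ⟨m1, m2⟩ | ⟨X0, rfl, hX0, m1, m2, m3⟩
    · omega
    · have hAX0 := hP.vA x (by omega)
      have e3 : 2*U + x = X0 := by omega
      rw [e3] at hAX0
      omega
  · have : Y = V - 1 := by omega
    subst this
    subst h2
    exact S

lemma neg_local (hP : PP r a U V) : ∀ i ≤ 2*r+4,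
    A (2*V-2+i) = V + r + 1 ∧ B (2*V-2+i) = V + i := by
  have hUU := hP.hU
  have hVV := hP.hV
  have haa := hP.ha
  have S := NInv.last hP
  have hX := S.hX
  have hY := S.hY
  have e1 : 2*V-3+1 = 2*V-2 := by omega
  have hAV : A V = U + (r+2) := by
    have := hP.vA (r+2) (by omega)
    have e : 2*U + (r+2) = V := by omega
    rwa [e] at this
  intro i
  induction i with
  | zero =>
    intro _
    have hRB : B (2*V-3+1) = A (2*U) + A (V-1+1) := RB (by omega) hX hY
    have a0 := hP.vA 0 (by omega)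
    rw [Nat.add_zero] at a0
    have e2 : V - 1 + 1 = V := by omega
    rw [e1] at hX hRB
    rw [e2] at hRB
    rw [Nat.add_zero]
    constructor <;> omega
  | succ i ih =>
    intro hi
    obtain ⟨h1, h2⟩ := ih (by omega)
    have b1 := hP.vB i (by omega)
    have b2 : B (V-1) = 2*a := by
      have := hP.vB (r+1) (by omega)
      have e : 2*U + (r+1) = V - 1 := by omega
      rwa [e] at this
    have a1 := hP.vA (i+1) (by omega)
    have hRA : A (2*V-2+i+1) + 1 = B (2*U+i) + B (V-1) := RA (by omega) (by omega) (by omega)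
    have hA : A (2*V-2+i+1) = V + r + 1 := by omega
    have hRB : B (2*V-2+i+1) = A (2*U+(i+1)) + A (V-1+1) := RB (by omega) (by omega) (by omega)
    have e2 : V - 1 + 1 = V := by omega
    rw [e2] at hRB
    have e3 : 2*V-2+(i+1) = 2*V-2+i+1 := by omega
    rw [e3]
    constructor <;> omega

theorem toNN (hP : PP r a U V) : NN r (V+r+1) V (2*V+r-1) := by
  have hUU := hP.hU
  have hVV := hP.hV
  have haa := hP.ha
  have S := NInv.last hP
  have hX := S.hX
  have hY := S.hY
  have hloc := neg_local hP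
  have hB3 : B (2*V-3) = V - 1 := by omega
  have hAV : A V = 2*a := by
    have := hP.vA (r+2) (by omega)
    have e : 2*U + (r+2) = V := by omega
    rw [e] at this
    omega
  have hBV : B V = 2*a := by
    have := hP.vB (r+2) (by omega)
    have e : 2*U + (r+2) = V := by omega
    rwa [e] at this
  have hBV1 : B (V-1) = 2*a := by
    have := hP.vB (r+1) (by omega)
    have e : 2*U + (r+1) = V-1 := by omega
    rwa [e] at this
  -- the last step
  have hlast := NInv.step hP (n := 2*V-4) (by omega) (NInv.all' hP (by omega) (by omega))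
  have hlastB : B (2*V-4) = V - 1 ∧ A (2*V-3) + 1 = V + r + 1 := by
    obtain ⟨X, Y, S4, hXY, hY4⟩ := NInv.all' hP (n := 2*V-4) (by omega) (by omega)
    have hY5 : Y + 2 ≤ V := by
      rcases hY4 with h1 | ⟨h1, h2⟩
      · exact h1
      · have := S4.hs
        omega
    have hh := S4.hY
    have hx := S4.hX
    have e4 : 2*V-4+1 = 2*V-3 := by omega
    have e5 : 2*V-4+2 = 2*V-2 := by omega
    have h20 := (hloc 0 (by omega)).1
    rw [Nat.add_zero] at h20
    have hc := hlast.2.1
    unfold cN at hc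
    rw [e4, e5] at hc
    rcases hc with ⟨c1, c2⟩ | ⟨c1, c2⟩
    · exfalso; omega
    · constructor <;> omega
  have hB2 : B (V+r+1) = A V := by
    have := hP.vB (2*r+3) (by omega)
    have e : 2*U + (2*r+3) = V+r+1 := by omega
    rw [e] at this
    omega
  have hA2 : A (V+r+2) = A V + r + 2 := by
    have := hP.vA (2*r+4) (by omega)
    have e : 2*U + (2*r+4) = V+r+2 := by omega
    rw [e] at this
    omega
  refine ⟨rfl, rfl, by omega, ?_, ?_, ?_, hlastB.2, hlastB.1, by omega, by omega, by omega,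
    hB2, hA2, ?_⟩
  · -- comp
    intro t ht1 ht2
    rcases Nat.lt_or_ge t (V+r+1) with h1 | h1
    · right
      obtain ⟨k, hk⟩ := Nat.exists_eq_add_of_le (show 2*U+(r+1) ≤ t by omega)
      have a1 := hP.vA (r+2+k) (by omega)
      have a2 := hP.vA (r+3+k) (by omega)
      have b1 := hP.vB (r+1+k) (by omega)
      have b2 := hP.vB (r+2+k) (by omega)
      have e1 : 2*U + (r+2+k) = t + 1 := by omega
      have e2 : 2*U + (r+3+k) = t + 2 := by omega
      have e3 : 2*U + (r+1+k) = t := by omega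
      rw [e1] at a1 b2
      rw [e2] at a2
      rw [e3] at b1
      constructor <;> omega
    · rcases Nat.lt_or_ge t (2*V-3) with h2 | h2
      · exact (NInv.step hP (by omega) (NInv.all' hP h1 (by omega))).2.1
      · left
        obtain ⟨k, hk⟩ := Nat.exists_eq_add_of_le h2
        have l1 := hloc k (by omega)
        have l2 := hloc (k+1) (by omega)
        have e1 : 2*V-2+k = t + 1 := by omega
        have e2 : 2*V-2+(k+1) = t + 2 := by omega
        rw [e1] at l1
        rw [e2] at l2
        refine ⟨by omega, ?_⟩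
        rcases Nat.eq_zero_or_pos k with hk0 | hk0
        · subst hk0
          rw [Nat.add_zero] at hk
          rw [hk, hB3]
          rw [hk] at l1
          omega
        · have l0 := hloc (k-1) (by omega)
          have e0 : 2*V-2+(k-1) = t := by omega
          rw [e0] at l0
          omega
  · intro j hj; exact (hloc j hj).1
  · intro j hj
    rcases Nat.eq_zero_or_pos j with hj0 | hj0
    · subst hj0; rw [Nat.add_zero, Nat.add_zero]; exact hB3
    · have := (hloc (j-1) (by omega)).2
      have e : 2*V-2+(j-1) = 2*V-3+j := by omega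
      rw [e] at this
      omega
  · intro t ht1 ht2
    rcases Nat.lt_or_ge t (V+r+2) with h1 | h1
    · obtain ⟨k, hk⟩ := Nat.exists_eq_add_of_le (show 2*U+(r+2) ≤ t by omega)
      have a1 := hP.vA (r+2+k) (by omega)
      have b1 := hP.vB (r+2+k) (by omega)
      have e1 : 2*U + (r+2+k) = t := by omega
      rw [e1] at a1 b1
      omega
    · rcases Nat.lt_or_ge t (2*V-2) with h2 | h2
      · have := (NInv.step hP (n := t-1) (by omega) (NInv.all' hP (by omega) (by omega))).2.2
        have e : t - 1 + 1 = t := by omega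
        rwa [e] at this
      · obtain ⟨k, hk⟩ := Nat.exists_eq_add_of_le h2
        have l1 := hloc k (by omega)
        rw [← hk] at l1
        omega

end Pool.Agent.V11199.HF
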