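import Pool.Agent.V11199.HF.Neg

/-!
The positive phase.
-/

namespace Pool.Agent.V11199.HF

variable {r b V W : ℕ}

lemma NN.monoA (h : NN r b V W) {s : ℕ} (hs : V ≤ s) : ∀ k, s + k ≤ W + r + 3 →
    A s ≤ A (s+k) := by
  intro k
  induction k with
  | zero => intro _; exact le_rfl
  | succ k ih =>
    intro hk
    have h1 := ih (by omega)
    have h10 := h.hr
    have h2 := h.comp (s+k-1) (by omega) (by omega)
    have e : s + (k+1) = s + k - 1 + 2 := by omega
    have e' : s + k - 1 + 1 = s + k := by omega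
    unfold cN at h2
    rw [e'] at h2
    rw [e]
    rcases h2 with ⟨h3, h4⟩ | ⟨h3, h4⟩ <;> omega

lemma NN.lipB (h : NN r b V W) {s : ℕ} (hs : V - 1 ≤ s) : ∀ k, s + k ≤ W + r + 2 →
    B s ≤ B (s+k) ∧ B (s+k) ≤ B s + k := by
  intro k
  induction k with
  | zero => intro _; exact ⟨le_rfl, le_rfl⟩
  | succ k ih =>
    intro hk
    have h1 := ih (by omega)
    have h2 := h.comp (s+k) (by omega) (by omega)
    have e : s + (k+1) = s + k + 1 := by omega
    rw [e]
    rcases h2 with ⟨h3, h4⟩ | ⟨h3, h4⟩ <;> omega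

lemma NN.W1 (h : NN r b V W) : A W = b ∧ B W = b ∧ A (W+1) = b ∧ B (W+1) = b+1 ∧
    B (W-1) + 1 = b := by
  have h1 := h.hb
  have h2 := h.hW
  have h3 := h.hr
  have a1 := h.uA (r+1) (by omega)
  have a2 := h.uA (r+2) (by omega)
  have b1 := h.uB (r+2) (by omega)
  have b2 := h.uB (r+3) (by omega)
  have b3 := h.uB (r+1) (by omega)
  have e1 : 2*V-2+(r+1) = W := by omega
  have e2 : 2*V-2+(r+2) = W+1 := by omega
  have e3 : 2*V-3+(r+2) = W := by omega
  have e4 : 2*V-3+(r+3) = W+1 := by omega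
  have e5 : 2*V-3+(r+1) = W-1 := by omega
  rw [e1] at a1
  rw [e2] at a2
  rw [e3] at b1
  rw [e4] at b2
  rw [e5] at b3
  refine ⟨a1, ?_, a2, ?_, ?_⟩ <;> omega

lemma NN.le1 (h : NN r b V W) {t : ℕ} (h1 : V ≤ t) (h2 : t ≤ W) : B t ≤ A t := by
  rcases Nat.eq_or_lt_of_le h1 with h3 | h3
  · rw [← h3, h.vB']
  · rcases Nat.eq_or_lt_of_le h2 with h4 | h4
    · rw [h4]
      have := h.W1
      omega
    · exact (h.neg t h3 h4).le

lemma NN.le2 (h : NN r b V W) {t : ℕ} (h1 : V - 1 ≤ t) (h2 : t < W) : B t ≤ A (t+1) := by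
  have hr := h.hr
  have hW := h.hW
  rcases Nat.eq_or_lt_of_le h1 with h3 | h3
  · have e : t + 1 = V := by omega
    rw [e, ← h3, h.vB]
  · have h4 := h.le1 (t := t) (by omega) (by omega)
    have h5 := h.monoA (s := t) (by omega) 1 (by omega)
    omega

/-- pointer state in the positive phase -/
structure PS (r V n X Y : ℕ) : Prop where
  hX : X + A n = n + 1
  hY : Y + B n = n + 1
  hs : X + Y + r + 1 = n
  mode : (∃ X0, X = X0 + 1 ∧ V ≤ X0 ∧ V - 1 ≤ Y ∧ A n + 1 = B X0 + B Y ∧ B n = A X + A (Y+1)) ∨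
    (∃ X0 Y0, X = X0 + 1 ∧ Y = Y0 + 1 ∧ V ≤ X0 ∧ V - 1 ≤ Y0 ∧ B X = B X0 + 1 ∧
      A n + 1 = B X + B Y0 ∧ B n = A X + A Y)

lemma PS.pos (hN : NN r b V W) {n X Y : ℕ} (S : PS r V n X Y) (hXW : X ≤ W) (hYW : Y < W) :
    A n < B n := by
  rcases S.mode with ⟨X0, rfl, hX0, hY0, m1, m2⟩ | ⟨X0, Y0, rfl, rfl, hX0, hY0, m0, m1, m2⟩
  · have h1 := hN.le2 (t := X0) (by omega) (by omega)
    have h2 := hN.le2 (t := Y) (by omega) (by omega)
    omega
  · have h1 := hN.le1 (t := X0+1) (by omega) (by omega)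
    have h2 := hN.le2 (t := Y0) (by omega) (by omega)
    omega

lemma PS.step (hN : NN r b V W) {n X Y : ℕ} (S : PS r V n X Y) (hXW : X ≤ W) (hYW : Y < W) :
    (PS r V (n+1) (X+1) Y ∧ A (n+1) = A n ∧ B (n+1) = B n + 1) ∨
    (PS r V (n+1) X (Y+1) ∧ A (n+1) = A n + 1 ∧ B (n+1) = B n) := by
  have hX := S.hX
  have hY := S.hY
  have hs := S.hs
  have hRA : A (n+1) + 1 = B X + B Y := RA (by omega) hX hY
  rcases S.mode with ⟨X0, rfl, hX0, hY0, m1, m2⟩ | ⟨X0, Y0, rfl, rfl, hX0, hY0, m0, m1, m2⟩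
  · have cX := hN.comp X0 (by omega) (by omega)
    rcases cX with ⟨c1, c2⟩ | ⟨c1, c2⟩
    · right
      have hA : A (n+1) = A n + 1 := by omega
      have hRB : B (n+1) = A (X0+1) + A (Y+1) := RB (by omega) (by omega) hY
      have hB : B (n+1) = B n := by omega
      refine ⟨⟨by omega, by omega, by omega, Or.inr ⟨X0, Y, rfl, rfl, hX0, hY0, c2, hRA, hRB⟩⟩,
        hA, hB⟩
    · left
      have hA : A (n+1) = A n := by omega
      have hRB : B (n+1) = A (X0+1+1) + A (Y+1) := RB (by omega) (by omega) hY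
      have c1' : A (X0+1+1) = A (X0+1) + 1 := c1
      have hB : B (n+1) = B n + 1 := by omega
      refine ⟨⟨by omega, by omega, by omega,
        Or.inl ⟨X0+1, rfl, by omega, hY0, hRA, hRB⟩⟩, hA, hB⟩
  · have cX := hN.comp X0 (by omega) (by omega)
    have cY := hN.comp Y0 (by omega) (by omega)
    have c3 : A (X0+1+1) = A (X0+1) := by
      rcases cX with ⟨c1, c2⟩ | ⟨c1, c2⟩
      · exact c1
      · exfalso; omega
    rcases cY with ⟨c1, c2⟩ | ⟨c1, c2⟩
    · right
      have c1' : A (Y0+1+1) = A (Y0+1) := c1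
      have hA : A (n+1) = A n + 1 := by omega
      have hRB : B (n+1) = A (X0+1) + A (Y0+1+1) := RB (by omega) (by omega) hY
      have hB : B (n+1) = B n := by omega
      refine ⟨⟨by omega, by omega, by omega,
        Or.inr ⟨X0, Y0+1, rfl, rfl, hX0, by omega, m0, hRA, hRB⟩⟩, hA, hB⟩
    · left
      have c1' : A (Y0+1+1) = A (Y0+1) + 1 := c1
      have hA : A (n+1) = A n := by omega
      have hRB : B (n+1) = A (X0+1+1) + A (Y0+1+1) := RB (by omega) (by omega) hY
      have hB : B (n+1) = B n + 1 := by omega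
      refine ⟨⟨by omega, by omega, by omega,
        Or.inl ⟨X0+1, rfl, by omega, by omega, hRA, hRB⟩⟩, hA, hB⟩

/-- the invariant along the positive phase -/
def PInv (r V W n : ℕ) : Prop :=
  ∃ X Y, PS r V n X Y ∧ X ≤ W ∧ (Y + r + 3 ≤ W ∨ (Y + r + 2 = W ∧ X = W))

lemma PInv.pos (hN : NN r b V W) {n : ℕ} (h : PInv r V W n) : A n < B n := by
  obtain ⟨X, Y, S, hX, hY⟩ := h
  exact S.pos hN hX (by omega)

lemma PInv.step (hN : NN r b V W) {n : ℕ} (hn : n + 2 ≤ 2 * W) (h : PInv r V W n) :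
    PInv r V W (n+1) ∧ cP n := by
  obtain ⟨X, Y, S, hXW, hYW⟩ := h
  have hbb := hN.hb
  have hWW := hN.hW
  have hrr := hN.hr
  have hW1 := hN.W1
  have hs := S.hs
  have hY2 : Y + r + 3 ≤ W := by
    rcases hYW with h1 | ⟨h1, h2⟩
    · exact h1
    · omega
  have hYV : V - 1 ≤ Y := by
    rcases S.mode with ⟨X0, _, _, hY0, _⟩ | ⟨X0, Y0, _, _, hX0, hY0, _⟩ <;> omega
  have hXV : V ≤ X := by
    rcases S.mode with ⟨X0, _, _, hY0, _⟩ | ⟨X0, Y0, _, _, hX0, hY0, _⟩ <;> omega
  have hRA : A (n+1) + 1 = B X + B Y := RA (by omega) S.hX S.hY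
  have e24 : W - r - 3 = 2*V-4 := by omega
  have hB24 : B (W-r-3) = V - 1 := by rw [e24]; exact hN.preB
  rcases S.step hN hXW (by omega) with ⟨S', h1, h2⟩ | ⟨S', h1, h2⟩
  · refine ⟨⟨X+1, Y, S', ?_, Or.inl hY2⟩, Or.inl ⟨h1, h2⟩⟩
    by_contra hc
    have hXW' : X = W := by omega
    subst hXW'
    obtain ⟨k, hk⟩ := Nat.exists_eq_add_of_le (show Y ≤ X - r - 3 by omega)
    have h3 := (hN.lipB (s := Y) hYV k (by omega)).2
    rw [← hk, hB24] at h3
    have := S.hX
    omega
  · refine ⟨⟨X, Y+1, S', hXW, ?_⟩, Or.inr ⟨h1, h2⟩⟩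
    rcases Nat.lt_or_ge (Y+r+3) W with h5 | h5
    · left; omega
    · right
      refine ⟨by omega, ?_⟩
      have hYe : Y = W - r - 3 := by omega
      have hBY : B Y = V - 1 := by rw [hYe]; exact hB24
      have := S'.hX
      have hBX : B X = b := by omega
      by_contra hc
      obtain ⟨k, hk⟩ := Nat.exists_eq_add_of_le (show X ≤ W - 1 by omega)
      have h3 := (hN.lipB (s := X) (by omega) k (by omega)).1
      rw [← hk] at h3
      omega

lemma PInv.start (hN : NN r b V W) : PInv r V W (W+r+3) := by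
  have hbb := hN.hb
  have hWW := hN.hW
  have hrr := hN.hr
  have a1 := hN.uA (2*r+4) (by omega)
  have b1 := hN.uB (2*r+5) (by omega)
  have e1 : 2*V-2+(2*r+4) = W+r+3 := by omega
  have e2 : 2*V-3+(2*r+5) = W+r+3 := by omega
  rw [e1] at a1
  rw [e2] at b1
  have h1 := hN.vA
  have h2 := hN.vB
  have h3 := hN.vB2
  have h4 := hN.vA2
  have e3 : V - 1 + 1 = V := by omega
  refine ⟨V+r+1+1, V-1, ⟨by omega, by omega, by omega,
    Or.inl ⟨V+r+1, rfl, by omega, le_rfl, by omega, ?_⟩⟩, by omega, Or.inl (by omega)⟩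
  rw [e3]
  have e4 : V+r+1+1 = V+r+2 := by omega
  rw [e4]
  omega

lemma PInv.all (hN : NN r b V W) : ∀ k, W + r + 3 + k + 1 ≤ 2 * W → PInv r V W (W+r+3+k) := by
  intro k
  induction k with
  | zero => intro _; exact PInv.start hN
  | succ k ih =>
    intro hk
    exact (PInv.step hN (by omega) (ih (by omega))).1

lemma PInv.all' (hN : NN r b V W) {n : ℕ} (h1 : W + r + 3 ≤ n) (h2 : n + 1 ≤ 2*W) :
    PInv r V W n := by
  obtain ⟨k, rfl⟩ := Nat.exists_eq_add_of_le h1
  exact PInv.all hN k h2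

lemma PInv.last (hN : NN r b V W) : PS r V (2*W-1) W (W-r-2) := by
  have hbb := hN.hb
  have hWW := hN.hW
  have hrr := hN.hr
  obtain ⟨X, Y, S, hX, hY⟩ := PInv.all' hN (n := 2*W-1) (by omega) (by omega)
  have hs := S.hs
  rcases hY with h1 | ⟨h1, h2⟩
  · exfalso; omega
  · have : Y = W - r - 2 := by omega
    subst this
    subst h2
    exact S

lemma pos_local (hN : NN r b V W) : ∀ i ≤ 2*r+6,
    A (2*W+i) = W + i ∧ (i ≤ 2*r+5 → B (2*W+i) = 2*b) := by
  have hbb := hN.hb
  have hWW := hN.hW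
  have hrr := hN.hr
  have hW1 := hN.W1
  have S := PInv.last hN
  have hX := S.hX
  have hY := S.hY
  intro i
  induction i with
  | zero =>
    intro _
    have e1 : 2*W-1+1 = 2*W := by omega
    have hRA : A (2*W-1+1) + 1 = B W + B (W-r-2) := RA (by omega) hX hY
    have hb0 := hN.uB 0 (by omega)
    have e2 : 2*V-3+0 = W-r-2 := by omega
    rw [e2] at hb0
    rw [e1] at hRA
    have hA : A (2*W) = W := by omega
    have hRB : B (2*W-1+1) = A (W+1) + A (W-r-2+1) :=
      RB (by omega) (by rw [e1]; omega) hY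
    have ha0 := hN.uA 0 (by omega)
    have e3 : 2*V-2+0 = W-r-2+1 := by omega
    rw [e3] at ha0
    rw [e1] at hRB
    rw [Nat.add_zero]
    refine ⟨by omega, fun _ => by omega⟩
  | succ i ih =>
    intro hi
    obtain ⟨h1, h2⟩ := ih (by omega)
    have h2 := h2 (by omega)
    have hb0 := hN.uB i (by omega)
    have hRA : A (2*W+i+1) + 1 = B (W+1) + B (2*V-3+i) := RA (by omega) (by omega) (by omega)
    have hA : A (2*W+i+1) = W + i + 1 := by omega
    have hRB : B (2*W+i+1) = A (W+1) + A (2*V-3+i+1) := RB (by omega) (by omega) (by omega)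
    have e3 : 2*W+(i+1) = 2*W+i+1 := by omega
    rw [e3]
    refine ⟨by omega, fun hi' => ?_⟩
    have ha0 := hN.uA i (by omega)
    have e4 : 2*V-2+i = 2*V-3+i+1 := by omega
    rw [e4] at ha0
    omega

theorem toPP (hN : NN r b V W) : PP (r+1) b W (2*W+r+3) := by
  have hbb := hN.hb
  have hWW := hN.hW
  have hrr := hN.hr
  have S := PInv.last hN
  have hX := S.hX
  have hY := S.hY
  have hloc := pos_local hN
  have hA0 := (hloc 0 (by omega)).1
  have hB0 := (hloc 0 (by omega)).2 (by omega)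
  rw [Nat.add_zero] at hA0 hB0
  have uA : ∀ j ≤ r+3, A (W+j) = b := by
    intro j hj
    have := hN.uA (r+1+j) (by omega)
    have e : 2*V-2+(r+1+j) = W+j := by omega
    rwa [e] at this
  have uB : ∀ j ≤ r+3, B (W+j) = b+j := by
    intro j hj
    have := hN.uB (r+2+j) (by omega)
    have e : 2*V-3+(r+2+j) = W+j := by omega
    rw [e] at this
    omega
  refine ⟨by omega, by omega, by omega, ?_, ?_, ?_, ?_, ?_, by omega, by omega, ?_⟩
  · intro j hj; exact uA j (by omega)
  · intro j hj; exact uB j (by omega)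
  · intro t ht1 ht2
    rcases Nat.lt_or_ge t (W+r+3) with h1 | h1
    · left
      obtain ⟨k, rfl⟩ := Nat.exists_eq_add_of_le ht1
      have a1 := uA k (by omega)
      have a2 := uA (k+1) (by omega)
      have b1 := uB k (by omega)
      have b2 := uB (k+1) (by omega)
      rw [← add_assoc] at a2 b2
      constructor <;> omega
    · rcases Nat.lt_or_ge t (2*W-1) with h2 | h2
      · exact (PInv.step hN (by omega) (PInv.all' hN h1 (by omega))).2
      · rcases Nat.eq_or_lt_of_le h2 with h3 | h3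
        · left
          have e : t + 1 = 2*W := by omega
          rw [e, ← h3]
          constructor <;> omega
        · right
          obtain ⟨k, rfl⟩ := Nat.exists_eq_add_of_le (show 2*W ≤ t by omega)
          have a1 := hloc k (by omega)
          have a2 := hloc (k+1) (by omega)
          have b1 := a1.2 (by omega)
          have b2 := a2.2 (by omega)
          rw [← add_assoc] at a2 b2
          constructor <;> omega
  · intro j hj; exact (hloc j (by omega)).1
  · intro j hj; exact (hloc j (by omega)).2 (by omega)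
  · intro t ht1 ht2
    rcases Nat.lt_or_ge t (W+r+3) with h1 | h1
    · obtain ⟨k, rfl⟩ := Nat.exists_eq_add_of_le ht1.le
      have a1 := uA k (by omega)
      have b1 := uB k (by omega)
      omega
    · rcases Nat.lt_or_ge t (2*W) with h2 | h2
      · exact (PInv.all' hN h1 (by omega)).pos hN
      · obtain ⟨k, rfl⟩ := Nat.exists_eq_add_of_le h2
        have a1 := hloc k (by omega)
        have b1 := a1.2 (by omega)
        omega

end Pool.Agent.V11199.HF
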